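import Mathlib

set_option autoImplicit false

namespace Pool.Agent.Results.MP_842c30_nt.Full

/-- `C_r(n)`: the decimal expansion of `n` written `r` times in a row. -/
def C (r n : ℕ) : ℕ := n * ∑ i ∈ Finset.range r, 10 ^ ((Nat.digits 10 n).length * i)

/-- `N_r(n) = 10 C_r(n) + 1`. -/
def N (r n : ℕ) : ℕ := 10 * C r n + 1

lemma key (r : ℕ) : (N r 750760 : ℤ) * 999999 = (2740 * 1000 ^ r - 2551) * (2740 * 1000 ^ r + 2551) := by
  have d : (Nat.digits 10 750760).length = 6 := by norm_num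
  induction r with
  | zero => simp [N, C]
  | succ r ih =>
    simp only [N, C, d, Finset.sum_range_succ, pow_mul] at ih ⊢
    push_cast at ih ⊢
    have : (1000000 : ℤ) ^ r = (1000 ^ r) ^ 2 := by rw [← pow_mul, mul_comm, pow_mul]; norm_num
    rw [this]
    linear_combination ih

theorem result : ∃ n : ℕ, 0 < n ∧ (∀ m : ℕ, n ≠ 10 ^ m) ∧
    ∀ r : ℕ, 1 ≤ r → 1 < N r n ∧ ¬ (N r n).Prime := by
  refine ⟨750760, by norm_num, fun m h => ?_, fun r hr => ?_⟩
  · have : 137 ∣ 10 ^ m := h ▸ by norm_num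
    have := (by norm_num : Nat.Prime 137).dvd_of_dvd_pow this
    omega
  have k := key r
  have y : (1000 : ℤ) ≤ 1000 ^ r := le_self_pow₀ (by norm_num) (by omega)
  generalize (1000 : ℤ) ^ r = x at k y
  refine ⟨by zify; nlinarith, fun hp => ?_⟩
  have hq := Nat.prime_iff_prime_int.1 hp
  have p0 : (0 : ℤ) < N r 750760 := by exact_mod_cast hp.pos
  rcases hq.dvd_or_dvd (k ▸ dvd_mul_right _ _) with ⟨c, e⟩ | ⟨c, e⟩
  · have : 0 < c := by nlinarith
    rw [e, mul_assoc] at k
    have := mul_left_cancel₀ p0.ne' k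
    nlinarith
  · have : 0 < c := by nlinarith
    rw [e, mul_left_comm] at k
    have := mul_left_cancel₀ p0.ne' k
    nlinarith

end Pool.Agent.Results.MP_842c30_nt.Full
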